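import Mathlib
import Pool.Agent.H.MP_09e892_an.A

set_option autoImplicit false

namespace Pool.Agent.Results.MP_09e892_an.Yes

open MeasureTheory Real
open scoped ENNReal ComplexConjugate

/-- the squared euclidean length -/
noncomputable def normSq {n : ℕ} (z : Fin n → ℂ) : ℝ := ∑ i, ‖z i‖ ^ 2

/-- the hermitian product -/
noncomputable def herm {n : ℕ} (z u : Fin n → ℂ) : ℂ := ∑ i, z i * conj (u i)

/-- the induced distance, as an integral against the Gaussian measure with parameter α / 2 -/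
noncomputable def dist {n : ℕ} (α : ℝ) (z w : Fin n → ℂ) : ℝ :=
  ∫ u, ‖Complex.exp (α * herm z u) - Complex.exp (α * herm w u)‖ *
    ((α / 2 / π) ^ n * exp (-(α / 2) * normSq u))

theorem result (n : ℕ) (hn : 1 ≤ n) (α : ℝ) (hα : 0 < α) (p : ℝ≥0∞) (hp : 0 < p) (f : (Fin n → ℂ) → ℂ)
    (hf : Differentiable ℂ f) (h : MemLp (fun z => f z * (exp (-(α * normSq z / 2)) : ℝ)) p volume) :
    ∃ g : (Fin n → ℂ) → ℝ, Continuous g ∧ (∀ z, 0 ≤ g z) ∧ MemLp g p volume ∧
      ∀ z w, ‖f z - f w‖ ≤ dist α z w * (g z + g w) :=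
  Pool.Agent.H.MP_09e892_an.fin hn hα hf hp.ne' (by
    have := h.norm
    simp only [norm_mul, Complex.norm_real, norm_of_nonneg (exp_pos _).le] at this
    exact this)

end Pool.Agent.Results.MP_09e892_an.Yes
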